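import Pool.Agent.Q6.TY.Basic

set_option autoImplicit false
set_option maxHeartbeats 400000

/-! # Project TY: JOB ASTEP (helper121) -/

namespace Pool.Agent.Q121.TY

open MvPolynomial Pool.Agent.Q6.TY

theorem norm_le_abs (x : ℝ) : ‖((x : ℝ) : UnitAddCircle)‖ ≤ |x| := by
  rw [UnitAddCircle.norm_eq]
  simpa using round_le x 0

section

variable {t : ℕ} {I : Ideal (P t)}

theorem HasSep.anti {n : ℕ} {ε ε' : ℝ} {N : ℕ} (h : HasSep I n ε N) (hε : ε' ≤ ε) :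
    HasSep I n ε' N := by
  obtain ⟨A, h1, h2, h3⟩ := h
  refine ⟨A, h1, h2, fun φ hφ ψ hψ hne => ?_⟩
  obtain ⟨u, hu, h⟩ := h3 φ hφ ψ hψ hne
  exact ⟨u, hu, hε.trans h⟩

theorem HasSep.mono {n n' : ℕ} {ε : ℝ} {N : ℕ} (h : HasSep I n ε N) (hn : n ≤ n') :
    HasSep I n' ε N := by
  obtain ⟨A, h1, h2, h3⟩ := h
  refine ⟨A, h1, h2, fun φ hφ ψ hψ hne => ?_⟩
  obtain ⟨u, hu, h⟩ := h3 φ hφ ψ hψ hne
  exact ⟨u, hu.trans hn, h⟩

theorem Sp_mono (hB : S_BND) {n n' : ℕ} {ε : ℝ} (hε : 0 < ε) (hn : n ≤ n') :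
    Sp I n ε ≤ Sp I n' ε :=
  le_Sp hB hε (HasSep.mono (hasSep_Sp hB I n hε) hn)

/-- the product inequality -/
theorem stepA (hB : S_BND) (hM : S_MAIN) {q q' : Ideal (P t)} {f : P t} (hq : q.IsPrime)
    (hle : q ≤ q') (hl : IsLin f) (hf : f ∉ q) (hf' : f ∈ q') {ε₀ : ℝ} (hε : 0 < ε₀) (j : ℕ) :
    ∀ n : ℕ, j ≤ n → (∏ i ∈ Finset.range j, Sp q' (n - i) ε₀) * Sp q (n - j) ε₀ ≤
      Sp q n (ε₀ / 3 ^ j) := by
  induction j with
  | zero =>
    intro n _
    simp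
  | succ j ih =>
    intro n hn
    obtain ⟨m, rfl⟩ : ∃ m, n = m + 1 := ⟨n - 1, by omega⟩
    have hε1 : 0 < ε₀ / 3 ^ (j + 1) := by positivity
    have hle1 : ε₀ / 3 ^ (j + 1) ≤ ε₀ := by
      apply div_le_self hε.le
      exact one_le_pow₀ (by norm_num)
    have h1 : HasSep q' (m + 1) (ε₀ / 3 ^ (j + 1)) (Sp q' (m + 1) ε₀) :=
      HasSep.anti (hasSep_Sp hB q' (m + 1) hε) hle1
    have h2 : HasSep q m (3 * (ε₀ / 3 ^ (j + 1))) (Sp q m (ε₀ / 3 ^ j)) := by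
      have : 3 * (ε₀ / 3 ^ (j + 1)) = ε₀ / 3 ^ j := by
        rw [pow_succ]; field_simp
      rw [this]
      exact hasSep_Sp hB q m (by positivity)
    have h3 := le_Sp hB hε1 (hM t q q' f hq hle hl hf hf' m _ hε1 _ _ h1 h2)
    have h4 := ih m (by omega)
    refine le_trans ?_ h3
    rw [Finset.prod_range_succ']
    have e1 : ∀ i ∈ Finset.range j, Sp q' (m + 1 - (i + 1)) ε₀ = Sp q' (m - i) ε₀ := by
      intro i _
      congr 1
      omega
    rw [Finset.prod_congr rfl e1, show m + 1 - (j + 1) = m - j by omega, Nat.sub_zero]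
    calc (∏ i ∈ Finset.range j, Sp q' (m - i) ε₀) * Sp q' (m + 1) ε₀ * Sp q (m - j) ε₀
        = Sp q' (m + 1) ε₀ * ((∏ i ∈ Finset.range j, Sp q' (m - i) ε₀) * Sp q (m - j) ε₀) := by
          ring
      _ ≤ _ := Nat.mul_le_mul_left _ h4

/-- a maximal separated set -/
theorem cover (hB : S_BND) (n : ℕ) {ε₀ : ℝ} (hε : 0 < ε₀) :
    ∃ B : Finset (P t →+ UnitAddCircle), B.card = Sp I n ε₀ ∧ (∀ φ ∈ B, ∀ f ∈ I, φ f = 0) ∧
      ∀ φ : P t →+ UnitAddCircle, (∀ f ∈ I, φ f = 0) → ∃ b ∈ B, ∀ u : Fin t →₀ ℕ,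
        u.degree ≤ n → ‖φ (monomial u 1) - b (monomial u 1)‖ < ε₀ := by
  classical
  obtain ⟨B, h1, h2, h3⟩ := hasSep_Sp hB I n hε
  refine ⟨B, h1, h2, fun φ hφ => ?_⟩
  by_contra hcon
  push Not at hcon
  have hφB : φ ∉ B := by
    intro h
    obtain ⟨u, _, hu⟩ := hcon φ h
    rw [sub_self, norm_zero] at hu
    linarith
  have h4 : HasSep I n ε₀ (Sp I n ε₀ + 1) := by
    refine ⟨insert φ B, by rw [Finset.card_insert_of_notMem hφB, h1], ?_, ?_⟩
    · intro χ hχ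
      rcases Finset.mem_insert.mp hχ with rfl | h
      · exact hφ
      · exact h2 χ h
    · intro χ hχ ψ hψ hne
      rcases Finset.mem_insert.mp hχ with rfl | h <;> rcases Finset.mem_insert.mp hψ with rfl | h'
      · exact absurd rfl hne
      · exact hcon ψ h'
      · obtain ⟨u, hu, hh⟩ := hcon χ h
        exact ⟨u, hu, by rw [norm_sub_rev]; exact hh⟩
      · exact h3 χ h ψ h' hne
  have := le_Sp hB hε h4
  omega

theorem stepB (hB : S_BND) (hV : S_VOL) {ε₁ : ℝ}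
    (hL : ∀ ε : ℝ, 0 < ε → ε ≤ ε₁ → ∀ (n : ℕ) (φ : P t →+ UnitAddCircle),
      (∀ f ∈ I, φ f = 0) → (∀ u : Fin t →₀ ℕ, u.degree ≤ n → ‖φ (monomial u 1)‖ < ε) →
      ∃ y : (Fin t →₀ ℕ) → ℝ, (∀ u : Fin t →₀ ℕ, u.degree ≤ n →
        ((y u : ℝ) : UnitAddCircle) = φ (monomial u 1) ∧ |y u| < ε) ∧ Exact I n y)
    {ε₀ : ℝ} (hε : 0 < ε₀) (hε₁ : ε₀ ≤ ε₁) (K n : ℕ) :
    (Sp I n (ε₀ / 3 ^ K) : ℝ) ≤ Sp I n ε₀ * (1 + 2 * 3 ^ K) ^ k I n := by
  classical
  have hεK : 0 < ε₀ / 3 ^ K := by positivity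
  obtain ⟨D, d1, d2, d3⟩ := hasSep_Sp hB I n hεK
  obtain ⟨B, b1, b2, b3⟩ := cover (I := I) hB n hε
  have hb : ∀ φ : P t →+ UnitAddCircle, ∃ b : P t →+ UnitAddCircle, φ ∈ D → b ∈ B ∧
      ∀ u : Fin t →₀ ℕ, u.degree ≤ n → ‖φ (monomial u 1) - b (monomial u 1)‖ < ε₀ := by
    intro φ
    by_cases h : φ ∈ D
    · obtain ⟨b, hb, hb'⟩ := b3 φ (d2 φ h)
      exact ⟨b, fun _ => ⟨hb, hb'⟩⟩
    · exact ⟨0, fun h' => absurd h' h⟩
  choose β hβ using hb
  have key : ∀ b ∈ B, ((D.filter (fun φ => β φ = b)).card : ℝ) ≤ (1 + 2 * 3 ^ K) ^ k I n := by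
    intro b hbB
    have hy : ∀ φ : P t →+ UnitAddCircle, ∃ y : (Fin t →₀ ℕ) → ℝ,
        φ ∈ D.filter (fun φ => β φ = b) → (∀ u : Fin t →₀ ℕ, u.degree ≤ n →
        ((y u : ℝ) : UnitAddCircle) = φ (monomial u 1) - b (monomial u 1) ∧ |y u| < ε₀) ∧
        Exact I n y := by
      intro φ
      by_cases h : φ ∈ D.filter (fun φ => β φ = b)
      · rw [Finset.mem_filter] at h
        obtain ⟨h1, h2⟩ := h
        obtain ⟨-, h4⟩ := hβ φ h1
        rw [h2] at h4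
        obtain ⟨y, hy1, hy2⟩ := hL ε₀ hε hε₁ n (φ - b) (by
          intro f hf
          rw [AddMonoidHom.sub_apply, d2 φ h1 f hf, b2 b hbB f hf, sub_zero]) (by
          intro u hu
          rw [AddMonoidHom.sub_apply]
          exact h4 u hu)
        refine ⟨y, fun _ => ⟨fun u hu => ?_, hy2⟩⟩
        obtain ⟨k1, k2⟩ := hy1 u hu
        rw [AddMonoidHom.sub_apply] at k1
        exact ⟨k1, k2⟩
      · exact ⟨0, fun h' => absurd h' h⟩
    choose y hy using hy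
    have hsep : ∀ φ ∈ D.filter (fun φ => β φ = b), ∀ ψ ∈ D.filter (fun φ => β φ = b), φ ≠ ψ →
        ∃ u : Fin t →₀ ℕ, u.degree ≤ n ∧ ε₀ / 3 ^ K ≤ |y φ u - y ψ u| := by
      intro φ hφ ψ hψ hne
      have hφ' := (Finset.mem_filter.mp hφ).1
      have hψ' := (Finset.mem_filter.mp hψ).1
      obtain ⟨u, hu, h⟩ := d3 φ hφ' ψ hψ' hne
      refine ⟨u, hu, h.trans ?_⟩
      have e1 := ((hy φ hφ).1 u hu).1
      have e2 := ((hy ψ hψ).1 u hu).1
      have e3 : φ (monomial u 1) - ψ (monomial u 1) =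
          ((y φ u - y ψ u : ℝ) : UnitAddCircle) := by
        rw [AddCircle.coe_sub, e1, e2]
        abel
      rw [e3]
      exact norm_le_abs _
    have hinj : Set.InjOn y (D.filter (fun φ => β φ = b)) := by
      intro φ hφ ψ hψ he
      by_contra hne
      obtain ⟨u, _, h⟩ := hsep φ hφ ψ hψ hne
      rw [he, sub_self, abs_zero] at h
      linarith
    have hv := hV t I n ε₀ (ε₀ / 3 ^ K) hε hεK ((D.filter (fun φ => β φ = b)).image y) (by
      intro z hz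
      obtain ⟨φ, hφ, rfl⟩ := Finset.mem_image.mp hz
      exact ⟨(hy φ hφ).2, fun u hu => ((hy φ hφ).1 u hu).2.le⟩) (by
      intro z hz z' hz' hne
      obtain ⟨φ, hφ, rfl⟩ := Finset.mem_image.mp hz
      obtain ⟨ψ, hψ, rfl⟩ := Finset.mem_image.mp hz'
      exact hsep φ hφ ψ hψ (fun h => hne (by rw [h])))
    rw [Finset.card_image_of_injOn hinj] at hv
    have e : 2 * ε₀ / (ε₀ / 3 ^ K) = 2 * 3 ^ K := by field_simp
    rw [e] at hv
    exact hv
  rw [← d1, ← b1]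
  have hcard : D.card = ∑ b ∈ B, (D.filter (fun φ => β φ = b)).card :=
    Finset.card_eq_sum_card_fiberwise (fun φ hφ => (hβ φ hφ).1)
  rw [hcard]
  push_cast
  calc ∑ b ∈ B, ((D.filter (fun φ => β φ = b)).card : ℝ)
      ≤ ∑ _b ∈ B, (1 + 2 * 3 ^ K : ℝ) ^ k I n := Finset.sum_le_sum key
    _ = _ := by rw [Finset.sum_const, nsmul_eq_mul]

end

theorem sum_shift (A : ℕ → ℝ) (h0 : ∀ n, 0 ≤ A n) (hm : ∀ n m, n ≤ m → A n ≤ A m) (N K : ℕ) :
    ∑ l ∈ Finset.range (N + 1), A (l + K) ≤ ∑ l ∈ Finset.range (N + 1), A l + K * A (N + K) := by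
  induction K with
  | zero => simp
  | succ K ih =>
    have e1 : ∑ l ∈ Finset.range (N + 1), A (l + (K + 1)) + A K =
        ∑ l ∈ Finset.range (N + 1), A (l + K) + A (N + K + 1) := by
      have h1 := Finset.sum_range_succ' (fun l => A (l + K)) (N + 1)
      have h2 := Finset.sum_range_succ (fun l => A (l + K)) (N + 1)
      simp only [Nat.zero_add] at h1
      have e : ∀ l, A (l + 1 + K) = A (l + (K + 1)) := fun l => by
        congr 1; ring
      simp only [e] at h1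
      have e' : A (N + 1 + K) = A (N + K + 1) := by congr 1; ring
      rw [e'] at h2
      linarith
    have h1 := h0 K
    have h2 := hm (N + K) (N + K + 1) (by omega)
    have h3 : (K : ℝ) * A (N + K) ≤ K * A (N + K + 1) :=
      mul_le_mul_of_nonneg_left h2 (by positivity)
    have e2 : N + (K + 1) = N + K + 1 := by ring
    rw [e2]
    push_cast
    linarith

theorem sum_up (A : ℕ → ℝ) (h0 : ∀ n, 0 ≤ A n) (N K s : ℕ) (hs : s ≤ K) :
    ∑ l ∈ Finset.range (N + 1), A l ≤ ∑ l ∈ Finset.range K, A l +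
      ∑ l ∈ Finset.range (N + 1), A (l + s) := by
  have h1 : ∑ l ∈ Finset.range (N + 1), A l ≤ ∑ l ∈ Finset.range (N + 1 + s), A l :=
    Finset.sum_le_sum_of_subset_of_nonneg (Finset.range_mono (by omega)) (fun _ _ _ => h0 _)
  have h2 : ∑ l ∈ Finset.range s, A l ≤ ∑ l ∈ Finset.range K, A l :=
    Finset.sum_le_sum_of_subset_of_nonneg (Finset.range_mono hs) (fun _ _ _ => h0 _)
  have h3 := Finset.sum_range_add A s (N + 1)
  rw [show N + 1 + s = s + (N + 1) by ring, h3] at h1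
  have h4 : ∑ l ∈ Finset.range (N + 1), A (s + l) = ∑ l ∈ Finset.range (N + 1), A (l + s) :=
    Finset.sum_congr rfl fun l _ => by rw [add_comm]
  rw [h4] at h1
  linarith

theorem task_ASTEP : S_BND → S_MAIN → S_LIN → S_VOL → S_DIM → S_ASTEP := by
  intro hB hM hLin hV _ t q q' f hq hle hl hf hf'
  obtain ⟨ε₁, hε₁, hL⟩ := hLin t q
  refine ⟨ε₁, hε₁, fun ε₀ hε hεε K hK => ?_⟩
  refine ⟨∑ l ∈ Finset.range K, Real.log (Sp q' l ε₀), fun N => ?_⟩
  set A : ℕ → ℝ := fun n => Real.log (Sp q n ε₀) with hA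
  set A' : ℕ → ℝ := fun n => Real.log (Sp q' n ε₀) with hA'
  set L : ℝ := Real.log (1 + 2 * 3 ^ K) with hLdef
  have hL0 : 0 ≤ L := Real.log_nonneg (by
    have : (0 : ℝ) ≤ 2 * 3 ^ K := by positivity
    linarith)
  have hA0 : ∀ n, 0 ≤ A n := fun n => logSp_nonneg hB q n hε
  have hA'0 : ∀ n, 0 ≤ A' n := fun n => logSp_nonneg hB q' n hε
  have hAm : ∀ n m, n ≤ m → A n ≤ A m := by
    intro n m hnm
    apply Real.log_le_log
    · exact_mod_cast one_le_Sp hB q n hε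
    · exact_mod_cast Sp_mono hB hε hnm
  have hpos : ∀ (J : Ideal (P t)) (n : ℕ), (0 : ℝ) < Sp J n ε₀ := fun J n => by
    exact_mod_cast one_le_Sp hB J n hε
  -- the inequality at one n
  have h1 : ∀ n, K ≤ n → ∑ i ∈ Finset.range K, A' (n - i) + A (n - K) ≤ A n + L * k q n := by
    intro n hn
    have e1 := stepA hB hM hq hle hl hf hf' hε K n hn
    have e2 := stepB (I := q) hB hV hL hε hεε K n
    have e3 : (((∏ i ∈ Finset.range K, Sp q' (n - i) ε₀) * Sp q (n - K) ε₀ : ℕ) : ℝ) ≤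
        Sp q n ε₀ * (1 + 2 * 3 ^ K) ^ k q n := le_trans (by exact_mod_cast e1) e2
    push_cast at e3
    have hp1 : (0 : ℝ) < ∏ i ∈ Finset.range K, (Sp q' (n - i) ε₀ : ℝ) :=
      Finset.prod_pos fun i _ => hpos q' (n - i)
    have e4 := Real.log_le_log (mul_pos hp1 (hpos q (n - K))) e3
    rw [Real.log_mul hp1.ne' (hpos q (n - K)).ne', Real.log_prod (fun i _ => (hpos q' (n - i)).ne'),
      Real.log_mul (hpos q n).ne' (by positivity), Real.log_pow] at e4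
    linarith
  -- sum
  have h2 : ∑ l ∈ Finset.range (N + 1), (∑ i ∈ Finset.range K, A' (l + K - i) + A (l + K - K)) ≤
      ∑ l ∈ Finset.range (N + 1), (A (l + K) + L * k q (l + K)) :=
    Finset.sum_le_sum fun l _ => h1 (l + K) (by omega)
  rw [Finset.sum_add_distrib, Finset.sum_add_distrib, Finset.sum_comm, ← Finset.mul_sum] at h2
  simp only [Nat.add_sub_cancel] at h2
  have h3 : ∀ i ∈ Finset.range K, ∑ l ∈ Finset.range (N + 1), A' l -
      ∑ l ∈ Finset.range K, A' l ≤ ∑ l ∈ Finset.range (N + 1), A' (l + K - i) := by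
    intro i hi
    have hi' := Finset.mem_range.mp hi
    have e1 := sum_up A' hA'0 N K (K - i) (by omega)
    have e2 : ∑ l ∈ Finset.range (N + 1), A' (l + (K - i)) =
        ∑ l ∈ Finset.range (N + 1), A' (l + K - i) :=
      Finset.sum_congr rfl fun l _ => by congr 1; omega
    rw [e2] at e1
    linarith
  have h4 := Finset.sum_le_sum h3
  rw [Finset.sum_const, Finset.card_range, nsmul_eq_mul] at h4
  have h5 := sum_shift A hA0 hAm N K
  have h6 : ∑ l ∈ Finset.range (N + 1), (k q (l + K) : ℝ) ≤ Sm (fun n => (k q n : ℝ)) (N + K) := by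
    have e3 := Finset.sum_range_add (fun n => (k q n : ℝ)) K (N + 1)
    have e4 : ∑ l ∈ Finset.range (N + 1), (k q (K + l) : ℝ) =
        ∑ l ∈ Finset.range (N + 1), (k q (l + K) : ℝ) :=
      Finset.sum_congr rfl fun l _ => by rw [add_comm]
    unfold Sm
    rw [show N + K + 1 = K + (N + 1) by ring, e3, e4]
    have : 0 ≤ ∑ x ∈ Finset.range K, (k q x : ℝ) := Finset.sum_nonneg fun _ _ => Nat.cast_nonneg _
    linarith
  have h7 := mul_le_mul_of_nonneg_left h6 hL0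
  have hKpos : (0 : ℝ) < K := by exact_mod_cast hK
  have h8 : (K : ℝ) * (∑ l ∈ Finset.range (N + 1), A' l - ∑ l ∈ Finset.range K, A' l) ≤
      K * A (N + K) + L * Sm (fun n => (k q n : ℝ)) (N + K) := by linarith
  have h9 : (∑ l ∈ Finset.range (N + 1), A' l - ∑ l ∈ Finset.range K, A' l) ≤
      (K * A (N + K) + L * Sm (fun n => (k q n : ℝ)) (N + K)) / K := by
    rw [le_div_iff₀ hKpos, mul_comm]
    exact h8
  have h10 : (K * A (N + K) + L * Sm (fun n => (k q n : ℝ)) (N + K)) / K =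
      A (N + K) + L / K * Sm (fun n => (k q n : ℝ)) (N + K) := by
    field_simp
  rw [h10] at h9
  show Sm A' N ≤ A (N + K) + L / K * Sm (fun n => (k q n : ℝ)) (N + K) +
    ∑ l ∈ Finset.range K, A' l
  unfold Sm at h9 ⊢
  linarith

end Pool.Agent.Q121.TY
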