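import Pool.Agent.Q121.TY.ASTEP

set_option autoImplicit false
set_option maxHeartbeats 400000

/-! # Project TY: JOB LIN (helper121) -/

namespace Pool.Agent.Q121.TY

open MvPolynomial Pool.Agent.Q6.TY

variable {t : ℕ}

theorem deg_le {f : P t} {u : Fin t →₀ ℕ} (h : u ∈ f.support) : u.degree ≤ f.totalDegree :=
  le_totalDegree h

theorem hc_mul {g : P t} {e : ℕ} (hg : g.IsHomogeneous e) (c : P t) (d : ℕ) :
    homogeneousComponent d (c * g) = if e ≤ d then homogeneousComponent (d - e) c * g else 0 := by
  classical
  ext u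
  rw [coeff_homogeneousComponent]
  have hz : ∀ x ∈ Finset.HasAntidiagonal.antidiagonal u, coeff x.2 g ≠ 0 → x.1.degree + e = u.degree := by
    intro x hx hne
    have h1 : x.2.degree = e := by
      by_contra h
      exact hne (hg.coeff_eq_zero h)
    rw [← Finset.HasAntidiagonal.mem_antidiagonal.mp hx, map_add, h1]
  split_ifs with h1 h2 h2
  · rw [coeff_mul, coeff_mul]
    refine Finset.sum_congr rfl fun x hx => ?_
    by_cases hne : coeff x.2 g = 0
    · rw [hne, mul_zero, mul_zero]
    · have h3 := hz x hx hne
      rw [coeff_homogeneousComponent, if_pos (by omega)]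
  · rw [coeff_mul, coeff_zero]
    apply Finset.sum_eq_zero
    intro x hx
    by_cases hne : coeff x.2 g = 0
    · rw [hne, mul_zero]
    · have h3 := hz x hx hne
      omega
  · rw [coeff_mul]
    symm
    apply Finset.sum_eq_zero
    intro x hx
    by_cases hne : coeff x.2 g = 0
    · rw [hne, mul_zero]
    · have h3 := hz x hx hne
      rw [coeff_homogeneousComponent, if_neg (by omega), zero_mul]
  · rw [coeff_zero]

/-- the top component -/
noncomputable def tp (f : P t) : P t := homogeneousComponent f.totalDegree f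

theorem gens (I : Ideal (P t)) : ∃ s : Finset (P t), (∀ F ∈ s, F ∈ I) ∧
    ∀ f ∈ I, ∃ c : P t → P t, ∑ F ∈ s, c F * tp F = tp f := by
  classical
  have hfg : (Submodule.span (P t) (tp '' (I : Set (P t)))).FG := IsNoetherian.noetherian _
  rw [Submodule.fg_span_iff_fg_span_finset_subset] at hfg
  obtain ⟨s', h1, h2⟩ := hfg
  rw [Finset.subset_set_image_iff] at h1
  obtain ⟨s, h3, h4⟩ := h1
  refine ⟨s, fun F hF => h3 hF, fun f hf => ?_⟩
  have h5 : tp f ∈ Submodule.span (P t) (tp '' (I : Set (P t))) :=
    Submodule.subset_span ⟨f, hf, rfl⟩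
  rw [h2, ← h4, Finset.coe_image, Submodule.mem_span_image_finset_iff_exists_fun'] at h5
  obtain ⟨c, hc⟩ := h5
  exact ⟨c, by simpa [smul_eq_mul] using hc⟩

/-- the linear functional of a function on the monomials -/
noncomputable def lam (y : (Fin t →₀ ℕ) → ℝ) : P t →ₗ[ℤ] ℝ :=
  (basisMonomials (Fin t) ℤ).constr ℤ y

theorem lam_monomial (y : (Fin t →₀ ℕ) → ℝ) (u : Fin t →₀ ℕ) (c : ℤ) :
    lam y (monomial u c) = c * y u := by
  have h1 : (monomial u c : P t) = c • (basisMonomials (Fin t) ℤ) u := by
    rw [coe_basisMonomials, smul_monomial, smul_eq_mul, mul_one]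
  rw [h1, map_smul, lam, Module.Basis.constr_basis, zsmul_eq_mul]

theorem lam_eq (y : (Fin t →₀ ℕ) → ℝ) (f : P t) :
    lam y f = ∑ u ∈ f.support, ((coeff u f : ℤ) : ℝ) * y u := by
  conv_lhs => rw [← support_sum_monomial_coeff f]
  rw [map_sum]
  exact Finset.sum_congr rfl fun u _ => lam_monomial y u _

theorem lam_mul (y : (Fin t →₀ ℕ) → ℝ) (u : Fin t →₀ ℕ) (F : P t) :
    lam y (monomial u 1 * F) = ∑ v ∈ F.support, ((coeff v F : ℤ) : ℝ) * y (u + v) := by
  conv_lhs => rw [← support_sum_monomial_coeff F]
  rw [Finset.mul_sum, map_sum]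
  refine Finset.sum_congr rfl fun v _ => ?_
  rw [monomial_mul, one_mul, lam_monomial]

theorem lam_hom_mul (y : (Fin t →₀ ℕ) → ℝ) (F h : P t)
    (H : ∀ u ∈ h.support, lam y (monomial u 1 * F) = 0) : lam y (h * F) = 0 := by
  have h1 : h * F = ∑ u ∈ h.support, coeff u h • (monomial u 1 * F) := by
    conv_lhs => rw [← support_sum_monomial_coeff h]
    rw [Finset.sum_mul]
    refine Finset.sum_congr rfl fun u _ => ?_
    rw [← smul_mul_assoc, smul_monomial, smul_eq_mul, mul_one]
  rw [h1, map_sum]
  apply Finset.sum_eq_zero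
  intro u hu
  rw [map_smul, H u hu, smul_zero]

/-- the finitely many relations imply all relations -/
theorem rel_all {I : Ideal (P t)} {s : Finset (P t)} (hs : ∀ F ∈ s, F ∈ I)
    (hgen : ∀ f ∈ I, ∃ c : P t → P t, ∑ F ∈ s, c F * tp F = tp f) (n : ℕ)
    (y : (Fin t →₀ ℕ) → ℝ)
    (hy : ∀ F ∈ s, ∀ u : Fin t →₀ ℕ, u.degree + F.totalDegree ≤ n →
      lam y (monomial u 1 * F) = 0) :
    ∀ d ≤ n + 1, ∀ f ∈ I, (∀ u ∈ f.support, u.degree < d) → lam y f = 0 := by
  classical
  intro d
  induction d with
  | zero =>
    intro _ f _ hf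
    have : f = 0 := by
      rw [← support_eq_empty, Finset.eq_empty_iff_forall_notMem]
      intro u hu
      exact absurd (hf u hu) (Nat.not_lt_zero _)
    rw [this, map_zero]
  | succ d ih =>
    intro hd f hfI hf
    by_cases h0 : ∀ u ∈ f.support, u.degree < d
    · exact ih (by omega) f hfI h0
    · push Not at h0
      obtain ⟨u0, hu0, hdu0⟩ := h0
      have htd : f.totalDegree = d := by
        apply le_antisymm
        · apply Finset.sup_le
          intro u hu
          exact Nat.lt_succ_iff.mp (hf u hu)
        · exact hdu0.trans (deg_le hu0)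
      obtain ⟨c, hc⟩ := hgen f hfI
      have htp : tp f = homogeneousComponent d f := by unfold tp; rw [htd]
      set s' := s.filter (fun F => F.totalDegree ≤ d) with hs'
      set h : P t → P t := fun F => homogeneousComponent (d - F.totalDegree) (c F) with hh
      set g : P t := ∑ F ∈ s', h F * F with hg
      have hhom : ∀ F, (h F).IsHomogeneous (d - F.totalDegree) := fun F =>
        homogeneousComponent_isHomogeneous _ _
      have hg0 : lam y g = 0 := by
        rw [hg, map_sum]
        apply Finset.sum_eq_zero
        intro F hF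
        obtain ⟨hF1, hF2⟩ := Finset.mem_filter.mp hF
        apply lam_hom_mul
        intro u hu
        apply hy F hF1
        have : u.degree = d - F.totalDegree := by
          by_contra hne
          exact (mem_support_iff.mp hu) ((hhom F).coeff_eq_zero hne)
        omega
      have hgI : g ∈ I := by
        rw [hg]
        exact I.sum_mem fun F hF => I.mul_mem_left _ (hs F (Finset.mem_filter.mp hF).1)
      have hcomp : homogeneousComponent d g = homogeneousComponent d f := by
        rw [← htp, ← hc, hg, map_sum]
        have e1 : homogeneousComponent d (∑ F ∈ s, c F * tp F) = ∑ F ∈ s, c F * tp F := by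
          rw [hc, htp]
          exact homogeneousComponent_eq_self (homogeneousComponent_isHomogeneous _ _)
        rw [← e1, map_sum, hs', Finset.sum_filter]
        refine Finset.sum_congr rfl fun F _ => ?_
        rw [hc_mul (g := tp F) (e := F.totalDegree) (homogeneousComponent_isHomogeneous _ _)]
        split_ifs with hle
        · rw [mul_comm (h F) F, hc_mul (hhom F), if_pos (Nat.sub_le _ _)]
          have : d - (d - F.totalDegree) = F.totalDegree := by omega
          rw [this, mul_comm]
          rfl
        · rfl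
      have hfg : lam y (f - g) = 0 := by
        apply ih (by omega) (f - g) (I.sub_mem hfI hgI)
        intro u hu
        have h1 : u.degree ≤ d := by
          have h2 := support_sub (Fin t) f g hu
          rcases Finset.mem_union.mp h2 with h3 | h3
          · exact Nat.lt_succ_iff.mp (hf u h3)
          · have h4 : u.degree ≤ g.totalDegree := deg_le h3
            refine h4.trans ?_
            rw [hg]
            refine (totalDegree_finsetSum _ _).trans ?_
            apply Finset.sup_le
            intro F hF
            have h5 := (Finset.mem_filter.mp hF).2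
            have h6 := totalDegree_mul (h F) F
            have h7 := (hhom F).totalDegree_le
            omega
        rcases h1.lt_or_eq with h2 | h2
        · exact h2
        · exfalso
          apply mem_support_iff.mp hu
          have h3 : coeff u (homogeneousComponent d (f - g)) = 0 := by
            rw [map_sub, hcomp, sub_self, coeff_zero]
          rw [coeff_homogeneousComponent, if_pos h2] at h3
          exact h3
      rw [map_sub, hg0, sub_zero] at hfg
      exact hfg

theorem task_LIN : S_LIN := by
  classical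
  intro t I
  obtain ⟨s, hs, hgen⟩ := gens I
  set N : ℝ := ∑ F ∈ s, (nrm F : ℝ) with hN
  have hnn : ∀ F : P t, (0 : ℝ) ≤ nrm F := fun F => by
    unfold nrm
    push_cast
    exact Finset.sum_nonneg fun _ _ => abs_nonneg _
  have hN0 : 0 ≤ N := Finset.sum_nonneg fun F _ => hnn F
  refine ⟨1 / (2 * (1 + N)), by positivity, fun ε hε hεε n φ hφ hsm => ?_⟩
  have hy : ∀ u : Fin t →₀ ℕ, ∃ y : ℝ, ((y : ℝ) : UnitAddCircle) = φ (monomial u 1) ∧
      |y| = ‖φ (monomial u 1)‖ := by
    intro u
    obtain ⟨x, hx⟩ := QuotientAddGroup.mk_surjective (φ (monomial u 1))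
    refine ⟨x - round x, ?_, ?_⟩
    · rw [AddCircle.coe_sub]
      have : ((round x : ℝ) : UnitAddCircle) = 0 := by
        rw [AddCircle.coe_eq_zero_iff]
        exact ⟨round x, by simp⟩
      rw [this, sub_zero]
      exact hx
    · rw [← hx]
      exact (UnitAddCircle.norm_eq (x := x)).symm
  choose y hy1 hy2 using hy
  have hysm : ∀ u : Fin t →₀ ℕ, u.degree ≤ n → |y u| < ε := fun u hu => by
    rw [hy2]; exact hsm u hu
  refine ⟨y, fun u hu => ⟨hy1 u, hysm u hu⟩, ?_⟩
  have hcoe : ∀ f : P t, ((lam y f : ℝ) : UnitAddCircle) = φ f := by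
    intro f
    conv_rhs => rw [← support_sum_monomial_coeff f]
    rw [lam_eq, map_sum]
    have e1 : ((∑ u ∈ f.support, ((coeff u f : ℤ) : ℝ) * y u : ℝ) : UnitAddCircle) =
        ∑ u ∈ f.support, (((((coeff u f : ℤ) : ℝ) * y u : ℝ)) : UnitAddCircle) :=
      map_sum (QuotientAddGroup.mk' (AddSubgroup.zmultiples (1 : ℝ))) _ _
    rw [e1]
    refine Finset.sum_congr rfl fun u _ => ?_
    have e2 : (monomial u (coeff u f) : P t) = coeff u f • monomial u 1 := by
      rw [smul_monomial, smul_eq_mul, mul_one]
    rw [e2, map_zsmul, ← hy1 u, ← AddCircle.coe_zsmul, zsmul_eq_mul]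
  have hrel : ∀ F ∈ s, ∀ u : Fin t →₀ ℕ, u.degree + F.totalDegree ≤ n →
      lam y (monomial u 1 * F) = 0 := by
    intro F hF u hu
    have h1 : ((lam y (monomial u 1 * F) : ℝ) : UnitAddCircle) = 0 := by
      rw [hcoe]
      exact hφ _ (I.mul_mem_left _ (hs F hF))
    rw [AddCircle.coe_eq_zero_iff] at h1
    obtain ⟨m, hm⟩ := h1
    rw [zsmul_eq_mul, mul_one] at hm
    have h2 : |lam y (monomial u 1 * F)| < 1 := by
      rw [lam_mul]
      calc |∑ v ∈ F.support, ((coeff v F : ℤ) : ℝ) * y (u + v)|
          ≤ ∑ v ∈ F.support, |((coeff v F : ℤ) : ℝ) * y (u + v)| :=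
            Finset.abs_sum_le_sum_abs _ _
        _ ≤ ∑ v ∈ F.support, |((coeff v F : ℤ) : ℝ)| * ε := by
            refine Finset.sum_le_sum fun v hv => ?_
            rw [abs_mul]
            apply mul_le_mul_of_nonneg_left _ (abs_nonneg _)
            apply (hysm (u + v) _).le
            rw [map_add]
            have := deg_le hv
            omega
        _ = (nrm F : ℝ) * ε := by
            rw [← Finset.sum_mul]
            unfold nrm
            push_cast
            rfl
        _ ≤ N * (1 / (2 * (1 + N))) :=
            mul_le_mul (Finset.single_le_sum (f := fun F => (nrm F : ℝ)) (fun F _ => hnn F) hF)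
              hεε hε.le hN0
        _ < 1 := by
            rw [mul_one_div, div_lt_one (by positivity)]
            linarith
    rw [← hm] at h2 ⊢
    have h3 : |m| < 1 := by exact_mod_cast h2
    rw [Int.abs_lt_one_iff] at h3
    rw [h3, Int.cast_zero]
  intro f hf hdeg
  rw [← lam_eq]
  apply rel_all hs hgen n y hrel (n + 1) le_rfl f hf
  intro u hu
  have := deg_le hu
  omega

end Pool.Agent.Q121.TY
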