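import Pool.Agent.Q6.TY.Basic

set_option autoImplicit false
set_option maxHeartbeats 400000

/-! # Project TY: JOB TORC (helper121) -/

namespace Pool.Agent.Q121.TY

open MvPolynomial Pool.Agent.Q6.TY

theorem common_den {ι : Type} [Finite ι] (x : ι → ℚ) :
    ∃ D : ℕ, 0 < D ∧ ∀ i, ∃ z : ℤ, (D : ℚ) * x i = z := by
  classical
  have := Fintype.ofFinite ι
  refine ⟨∏ i, (x i).den, Finset.prod_pos fun i _ => (x i).pos, fun i => ?_⟩
  refine ⟨(∏ j ∈ Finset.univ.erase i, ((x j).den : ℤ)) * (x i).num, ?_⟩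
  rw [← Finset.mul_prod_erase Finset.univ _ (Finset.mem_univ i)]
  push_cast
  have h : ((x i).den : ℚ) * x i = (x i).num := Rat.den_mul_eq_num (x i)
  calc ((x i).den : ℚ) * (∏ j ∈ Finset.univ.erase i, ((x j).den : ℚ)) * x i
      = (∏ j ∈ Finset.univ.erase i, ((x j).den : ℚ)) * (((x i).den : ℚ) * x i) := by ring
    _ = _ := by rw [h]

/-- the exponent vector as a rational vector -/
def qv {t : ℕ} (u : Fin t →₀ ℕ) : Fin t → ℚ := fun i => (u i : ℚ)

theorem dif_eq {t : ℕ} (u v : Fin t →₀ ℕ) : dif u v = qv u - qv v := rfl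

/-- a linear map with integer values after multiplication by `D` -/
theorem int_map {t : ℕ} {ι : Type} [Finite ι] (g : (Fin t → ℚ) →ₗ[ℚ] (ι → ℚ)) :
    ∃ D : ℕ, 0 < D ∧ ∃ z : Fin t → ι → ℤ, ∀ (u : Fin t →₀ ℕ) (b : ι),
      (D : ℚ) * g (qv u) b = ((∑ j, (u j : ℤ) * z j b : ℤ) : ℚ) := by
  obtain ⟨D, hD, h⟩ := common_den (fun x : Fin t × ι => g (Pi.single x.1 1) x.2)
  choose z hz using h
  refine ⟨D, hD, fun j b => z (j, b), fun u b => ?_⟩
  have e1 : qv u = ∑ j, (u j : ℚ) • (Pi.single j (1 : ℚ) : Fin t → ℚ) := by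
    ext i
    rw [Finset.sum_apply]
    simp [qv, Pi.single_apply]
  rw [e1, map_sum, Finset.sum_apply, Finset.mul_sum]
  push_cast
  refine Finset.sum_congr rfl fun j _ => ?_
  rw [map_smul, Pi.smul_apply, smul_eq_mul, ← hz (j, b)]
  ring

/-- clipping an integer -/
def clip (R : ℕ) (z : ℤ) : Fin (2 * R + 1) := ⟨min (z + R).toNat (2 * R), by omega⟩

theorem clip_inj {R : ℕ} {z z' : ℤ} (h1 : |z| ≤ R) (h2 : |z'| ≤ R) (h : clip R z = clip R z') :
    z = z' := by
  have h3 := congrArg Fin.val h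
  simp only [clip] at h3
  rw [abs_le] at h1 h2
  omega

/-- monomials with integer exponents -/
noncomputable def chi {t : ℕ} (p : Fin t → ℂ) (w : Fin t → ℤ) : ℂ := ∏ j, p j ^ w j

theorem chi_add {t : ℕ} {p : Fin t → ℂ} (hp : ∀ i, p i ≠ 0) (w w' : Fin t → ℤ) :
    chi p (w + w') = chi p w * chi p w' := by
  unfold chi
  rw [← Finset.prod_mul_distrib]
  exact Finset.prod_congr rfl fun j _ => zpow_add₀ (hp j) _ _

theorem chi_zero {t : ℕ} (p : Fin t → ℂ) : chi p 0 = 1 := by simp [chi]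

theorem chi_smul {t : ℕ} (p : Fin t → ℂ) (m : ℤ) (w : Fin t → ℤ) :
    chi p (m • w) = chi p w ^ m := by
  unfold chi
  rw [← Finset.prod_zpow]
  refine Finset.prod_congr rfl fun j _ => ?_
  rw [Pi.smul_apply, smul_eq_mul, mul_comm, zpow_mul]

theorem chi_sum {t : ℕ} {p : Fin t → ℂ} (hp : ∀ i, p i ≠ 0) {ι : Type} (s : Finset ι)
    (w : ι → Fin t → ℤ) : chi p (∑ i ∈ s, w i) = ∏ i ∈ s, chi p (w i) := by
  classical
  induction s using Finset.induction_on with
  | empty => simp [chi_zero]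
  | insert a s ha ih => rw [Finset.sum_insert ha, Finset.prod_insert ha, chi_add hp, ih]

theorem evh_monomial {t : ℕ} (p : Fin t → ℂ) (u : Fin t →₀ ℕ) (c : ℤ) :
    evh p (monomial u c) = c * ∏ j, p j ^ (u j) := by
  unfold evh
  show aeval p (monomial u c) = _
  rw [aeval_monomial, Finsupp.prod_fintype _ _ (fun _ => pow_zero _)]
  simp

/-- the difference of two exponent vectors, as integers -/
def zd {t : ℕ} (u v : Fin t →₀ ℕ) : Fin t → ℤ := fun i => (u i : ℤ) - v i

theorem chi_zd {t : ℕ} {p : Fin t → ℂ} (hp : ∀ i, p i ≠ 0) (u v : Fin t →₀ ℕ) :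
    chi p (zd u v) * ∏ j, p j ^ (v j) = ∏ j, p j ^ (u j) := by
  unfold chi zd
  rw [← Finset.prod_mul_distrib]
  refine Finset.prod_congr rfl fun j _ => ?_
  rw [zpow_sub₀ (hp j), zpow_natCast, zpow_natCast, div_mul_cancel₀]
  exact pow_ne_zero _ (hp j)

theorem mono_ne {t : ℕ} {p : Fin t → ℂ} (hp : ∀ i, p i ≠ 0) (v : Fin t →₀ ℕ) :
    ∏ j, p j ^ (v j) ≠ 0 := Finset.prod_ne_zero_iff.mpr fun j _ => pow_ne_zero _ (hp j)

theorem bin_chi {t : ℕ} {p : Fin t → ℂ} (hp : ∀ i, p i ≠ 0) {f : P t} {w : Fin t → ℚ}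
    (hf : f ∈ mx p) (hb : IsBin f w) :
    ∃ z : Fin t → ℤ, (∀ i, w i = z i) ∧ chi p z ^ 2 = 1 := by
  obtain ⟨u, v, σ, hσ, _, _, rfl, rfl⟩ := hb
  refine ⟨zd u v, fun i => by simp [dif, zd], ?_⟩
  have h1 : evh p (monomial u 1 - monomial v σ) = 0 := hf
  rw [map_sub, evh_monomial, evh_monomial] at h1
  have h2 := chi_zd hp u v
  have h3 : chi p (zd u v) = σ := by
    have h4 : (∏ j, p j ^ (v j)) ≠ 0 := mono_ne hp v
    apply mul_right_cancel₀ h4
    rw [h2]
    push_cast at h1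
    linear_combination h1
  rw [h3]
  rcases hσ with rfl | rfl <;> norm_num

theorem task_TORC : S_BND → S_TORP → S_TORC := by
  classical
  intro hB hT t p F hp hF ε hε
  set V := Vsp F with hV
  set a := Module.finrank ℚ V with ha
  -- a finite spanning set of binomial vectors
  obtain ⟨s, hsS, hsV⟩ : ∃ s : Finset (Fin t → ℚ), (↑s : Set (Fin t → ℚ)) ⊆
      {w | ∃ f ∈ F, IsBin f w} ∧ Submodule.span ℚ (↑s : Set (Fin t → ℚ)) = V := by
    have hfg : V.FG := IsNoetherian.noetherian V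
    rw [hV] at hfg
    unfold Vsp at hfg
    rw [Submodule.fg_span_iff_fg_span_finset_subset] at hfg
    obtain ⟨s, h1, h2⟩ := hfg
    exact ⟨s, h1, h2.symm⟩
  have hbz : ∀ b : s, ∃ z : Fin t → ℤ, (∀ i, (b : Fin t → ℚ) i = z i) ∧ chi p z ^ 2 = 1 := by
    intro b
    obtain ⟨f, hf, hb⟩ := hsS b.2
    exact bin_chi hp (hF f hf) hb
  choose bz hbz1 hbz2 using hbz
  -- a linear section
  obtain ⟨lam, hlam⟩ : ∃ lam : (Fin t → ℚ) →ₗ[ℚ] (s → ℚ), ∀ w ∈ V,
      ∑ b : s, lam w b • (b : Fin t → ℚ) = w := by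
    let B : (s → ℚ) →ₗ[ℚ] (Fin t → ℚ) := Fintype.linearCombination ℚ (fun b : s => (b : Fin t → ℚ))
    have hBr : LinearMap.range B = V := by
      rw [Fintype.range_linearCombination, Subtype.range_coe_subtype, ← hsV]
      congr 1
    have hBV : ∀ x, B x ∈ V := fun x => by rw [← hBr]; exact LinearMap.mem_range_self B x
    let B' : (s → ℚ) →ₗ[ℚ] V := B.codRestrict V hBV
    have hB's : LinearMap.range B' = ⊤ := by
      rw [LinearMap.range_eq_top]
      rintro ⟨w, hw⟩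
      rw [← hBr] at hw
      obtain ⟨x, hx⟩ := hw
      exact ⟨x, Subtype.ext hx⟩
    obtain ⟨g, hg⟩ := B'.exists_rightInverse_of_surjective hB's
    obtain ⟨g', hg'⟩ := LinearMap.exists_extend g
    refine ⟨g', fun w hw => ?_⟩
    have h1 : g' w = g ⟨w, hw⟩ := by rw [← hg']; rfl
    have h2 : B' (g ⟨w, hw⟩) = ⟨w, hw⟩ := by
      have := LinearMap.congr_fun hg ⟨w, hw⟩
      exact this
    have h3 := congrArg Subtype.val h2
    rw [h1]
    exact h3
  obtain ⟨D, hD, z, hz⟩ := int_map lam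
  -- the quotient map
  have hfr : Module.finrank ℚ ((Fin t → ℚ) ⧸ V) = t - a := by
    have h1 := Submodule.finrank_quotient_add_finrank V
    rw [Module.finrank_fin_fun] at h1
    omega
  let e : ((Fin t → ℚ) ⧸ V) ≃ₗ[ℚ] (Fin (t - a) → ℚ) :=
    LinearEquiv.ofFinrankEq _ _ (by rw [hfr, Module.finrank_fin_fun])
  obtain ⟨D', hD', y, hy⟩ := int_map (e.toLinearMap.comp V.mkQ)
  obtain ⟨M, hM⟩ : ∃ M : ℕ, ∀ j c, |y j c| ≤ M := by
    refine ⟨∑ j, ∑ c, (y j c).natAbs, fun j c => ?_⟩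
    have h1 : (y j c).natAbs ≤ ∑ c, (y j c).natAbs :=
      Finset.single_le_sum (f := fun c => (y j c).natAbs) (fun _ _ => Nat.zero_le _)
        (Finset.mem_univ c)
    have h2 : ∑ c, (y j c).natAbs ≤ ∑ j, ∑ c, (y j c).natAbs :=
      Finset.single_le_sum (f := fun j => ∑ c, (y j c).natAbs) (fun _ _ => Nat.zero_le _)
        (Finset.mem_univ j)
    rw [Int.abs_eq_natAbs]
    exact_mod_cast h1.trans h2
  have : NeZero (2 * D) := ⟨by omega⟩
  set L : ℝ := Real.log ((⌊1 / ε⌋₊ + 1 : ℕ) : ℝ) with hLdef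
  have hL0 : 0 ≤ L := Real.log_nonneg (by exact_mod_cast Nat.succ_le_succ (Nat.zero_le _))
  refine ⟨(2 * M + 1 : ℝ) ^ (t - a) * (2 * D : ℝ) ^ s.card * L, fun n N hN => ?_⟩
  have hbound := hB t (tor p V) n ε hε
    ((Fin (t - a) → Fin (2 * (M * n) + 1)) × (s → ZMod (2 * D)))
    (fun u => (fun c => clip (M * n) (∑ j, (u j : ℤ) * y j c),
      fun b => ((∑ j, (u j : ℤ) * z j b : ℤ) : ZMod (2 * D)))) (by
    intro u v hu hv huv
    rw [Prod.mk.injEq] at huv
    obtain ⟨h1, h2⟩ := huv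
    have habs : ∀ u : Fin t →₀ ℕ, u.degree ≤ n → ∀ c, |∑ j, (u j : ℤ) * y j c| ≤ (M * n : ℕ) := by
      intro u hu c
      calc |∑ j, (u j : ℤ) * y j c| ≤ ∑ j, |(u j : ℤ) * y j c| := Finset.abs_sum_le_sum_abs _ _
        _ ≤ ∑ j, (u j : ℤ) * M := by
            refine Finset.sum_le_sum fun j _ => ?_
            rw [abs_mul, abs_of_nonneg (Int.natCast_nonneg _)]
            exact mul_le_mul_of_nonneg_left (hM j c) (Int.natCast_nonneg _)
        _ = (u.degree : ℤ) * M := by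
            rw [← Finset.sum_mul, Finsupp.degree_eq_sum]; push_cast; rfl
        _ ≤ (M * n : ℕ) := by
            push_cast
            rw [mul_comm]
            exact mul_le_mul_of_nonneg_left (by exact_mod_cast hu) (Int.natCast_nonneg _)
    -- same class modulo `V`
    have hmem : dif u v ∈ V := by
      have h3 : (e.toLinearMap.comp V.mkQ) (dif u v) = 0 := by
        rw [dif_eq, map_sub]
        ext c
        have h4 := clip_inj (habs u hu c) (habs v hv c) (congrFun h1 c)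
        have h5 := hy u c
        have h6 := hy v c
        rw [h4] at h5
        have h7 : (D' : ℚ) * (e.toLinearMap.comp V.mkQ) (qv u) c =
            (D' : ℚ) * (e.toLinearMap.comp V.mkQ) (qv v) c := h5.trans h6.symm
        have h8 : (D' : ℚ) ≠ 0 := by exact_mod_cast hD'.ne'
        have h9 := mul_left_cancel₀ h8 h7
        rw [Pi.sub_apply, h9, sub_self]
        rfl
      have h4 : e (V.mkQ (dif u v)) = 0 := h3
      rw [LinearEquiv.map_eq_zero_iff] at h4
      exact (Submodule.Quotient.mk_eq_zero V).mp h4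
    -- the coefficients are even integers
    have hm : ∀ b : s, ∃ m : ℤ, lam (dif u v) b = 2 * m := by
      intro b
      have h3 : ((∑ j, (u j : ℤ) * z j b : ℤ) : ZMod (2 * D)) =
          ((∑ j, (v j : ℤ) * z j b : ℤ) : ZMod (2 * D)) := congrFun h2 b
      rw [ZMod.intCast_eq_intCast_iff_dvd_sub] at h3
      obtain ⟨m, hm⟩ := h3
      refine ⟨-m, ?_⟩
      have h4 := hz u b
      have h5 := hz v b
      have h6 : (D : ℚ) * lam (dif u v) b = D * (2 * ((-m : ℤ) : ℚ)) := by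
        rw [dif_eq, map_sub, Pi.sub_apply, mul_sub, h4, h5, ← Int.cast_sub]
        have : (∑ j, (u j : ℤ) * z j b) - ∑ j, (v j : ℤ) * z j b = (D : ℤ) * (2 * (-m)) := by
          have hm' := hm
          push_cast at hm'
          linear_combination -hm'
        rw [this]
        push_cast
        ring
      have h8 : (D : ℚ) ≠ 0 := by exact_mod_cast hD.ne'
      exact mul_left_cancel₀ h8 h6
    choose m hm using hm
    have hzd : zd u v = ∑ b : s, (2 * m b) • bz b := by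
      ext i
      have h3 := congrFun (hlam _ hmem) i
      rw [Finset.sum_apply] at h3 ⊢
      have h4 : (zd u v i : ℚ) = dif u v i := by simp [zd, dif]
      have h5 : ((∑ b : s, ((2 * m b) • bz b) i : ℤ) : ℚ) =
          ∑ b : s, (lam (dif u v) b • (b : Fin t → ℚ)) i := by
        push_cast
        refine Finset.sum_congr rfl fun b _ => ?_
        rw [Pi.smul_apply, Pi.smul_apply, smul_eq_mul, smul_eq_mul, hm b, hbz1 b i]
        push_cast
        ring
      have h6 : (zd u v i : ℚ) = ((∑ b : s, ((2 * m b) • bz b) i : ℤ) : ℚ) := by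
        rw [h4, h5, h3]
      exact_mod_cast h6
    have hchi : chi p (zd u v) = 1 := by
      rw [hzd, chi_sum hp]
      apply Finset.prod_eq_one
      intro b _
      rw [chi_smul, zpow_mul]
      have : chi p (bz b) ^ (2 : ℤ) = 1 := by
        have := hbz2 b
        exact_mod_cast this
      rw [this, one_zpow]
    have hmx : (monomial u 1 - monomial v 1 : P t) ∈ mx p := by
      show evh p (monomial u 1 - monomial v 1) = 0
      rw [map_sub, evh_monomial, evh_monomial, ← chi_zd hp u v, hchi]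
      ring
    exact (hT t p hp).2.2.2.2.2.1 V u v 1 hmem hmx) N hN
  have hcard : Fintype.card ((Fin (t - a) → Fin (2 * (M * n) + 1)) × (s → ZMod (2 * D))) =
      (2 * (M * n) + 1) ^ (t - a) * (2 * D) ^ s.card := by
    rw [Fintype.card_prod, Fintype.card_fun, Fintype.card_fun, Fintype.card_fin,
      Fintype.card_fin, ZMod.card, Fintype.card_coe]
  rw [hcard] at hbound
  have h1 : Real.log N ≤ ((2 * (M * n) + 1) ^ (t - a) * (2 * D) ^ s.card : ℕ) * L := by
    rcases Nat.eq_zero_or_pos N with rfl | hN0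
    · rw [Nat.cast_zero, Real.log_zero]
      positivity
    · have h2 : Real.log N ≤ Real.log (((⌊1 / ε⌋₊ + 1) ^
          ((2 * (M * n) + 1) ^ (t - a) * (2 * D) ^ s.card) : ℕ) : ℝ) :=
        Real.log_le_log (by exact_mod_cast hN0) (by exact_mod_cast hbound)
      rw [Nat.cast_pow, Real.log_pow] at h2
      exact h2
  refine h1.trans ?_
  have h2 : ((2 * (M * n) + 1 : ℕ) : ℝ) ≤ (2 * M + 1) * ((n : ℝ) + 1) := by
    push_cast
    have : (0 : ℝ) ≤ M := Nat.cast_nonneg _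
    have : (0 : ℝ) ≤ n := Nat.cast_nonneg _
    nlinarith
  have h3 : ((2 * (M * n) + 1 : ℕ) : ℝ) ^ (t - a) ≤ ((2 * M + 1) * ((n : ℝ) + 1)) ^ (t - a) :=
    pow_le_pow_left₀ (Nat.cast_nonneg _) h2 _
  rw [mul_pow] at h3
  push_cast at h3 ⊢
  have h4 : (0 : ℝ) ≤ (2 * D : ℝ) ^ s.card * L := by positivity
  calc (2 * ((M : ℝ) * n) + 1) ^ (t - a) * (2 * D : ℝ) ^ s.card * L
      = (2 * ((M : ℝ) * n) + 1) ^ (t - a) * ((2 * D : ℝ) ^ s.card * L) := by ring
    _ ≤ ((2 * M + 1 : ℝ) ^ (t - a) * ((n : ℝ) + 1) ^ (t - a)) * ((2 * D : ℝ) ^ s.card * L) :=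
        mul_le_mul_of_nonneg_right h3 h4
    _ = _ := by ring

end Pool.Agent.Q121.TY
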